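import Mathlib
import Pool.Agent.H491.Dep5

set_option autoImplicit false

/-!
# In every depth `D ≥ 2` a positive proportion of the multiple zeta values is transcendental, odd weights included

The question Q1 (every polynomial relation over `ℚ` between real multiple zeta values holds for the `p`-adic ones) implies
that many real multiple zeta values are transcendental. We prove unconditionally that a positive proportion of them is, in
every depth `D ≥ 2`, even if one prescribes the number `q < D` of the odd arguments; for these indices there is no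
relation `f(ζ(s)) = 0` at all. More generally the values lie outside of any given space `E` of finite dimension over the
field of the real algebraic numbers, for example the space spanned by `1` and finitely many multiple zeta values, and the
proportion does not depend on `E`.

(1) Let `w` be an admissible index of depth `c`. For all integers `τ ≥ 1` with at most `(c + 1) e (e + 1) / 2` exceptions
there is an index `k` of depth `c + 1` with `ζ(k) ∉ E` which arises from `w` in the following way: `2 τ` is added to the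
entries in a set `J` of places, and a new entry `2 τ a`, `1 ≤ a ≤ c + 1 - |J|`, is inserted at any place. For example
(`c = 1`, `E` the real algebraic numbers): for every `n ≥ 2` and all but at most two `τ ≥ 1` at least one of the six
numbers `ζ(2 τ, n)`, `ζ(n, 2 τ)`, `ζ(4 τ, n)`, `ζ(n, 4 τ)`, `ζ(2 τ, n + 2 τ)`, `ζ(n + 2 τ, 2 τ)` is transcendental.

(2) The number of the indices of depth `c + 1` and weight at most `5 (c + 1) M` with exactly `q ≤ c` odd entries (and all
entries at least `2`) whose value is not in `E` is at least `M ^ c (M - (c + 1) e (e + 1) / 2) / ((c + 1) ^ 2 2 ^ c)`.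

Proof. Suppose that all the values in (1) are in `E` for some `τ`; put `s = 2 τ`, `T = π ^ s`. For a polynomial `P` in
`c` variables let `G(P)` be the series of `ζ(w)` with the additional factor `P(n_1 ^ (-s), …, n_c ^ (-s))`. By the stuffle
product `ζ(s a) G(P) = G(p_a P)` modulo the values of depth `c + 1`, `p_a` the power sum. Newton's identities for the
elementary symmetric polynomials `e_j` give by induction `G(e_j) = ζ({s}^j) G(1)` modulo `E + T E + ⋯ + T ^ (j - 1) E`.
As `e_(c + 1) = 0` in `c` variables and `ζ({s}^(c + 1))` is a nonzero rational multiple of `T ^ (c + 1)`, it follows that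
`T ^ (c + 1) ζ(w)` is in `E + T E + ⋯ + T ^ c E`. Apply a `K`-linear map `ℝ → K` with `ζ(w) ↦ 1`, `K` the field generated
by `π ^ 2` over the real algebraic numbers, a field of rational functions: the image of `E` contains functions of at most
`e` different degrees, and comparing degrees one sees that `τ` divides one of these degrees or of their differences, with a
quotient at most `c + 1`. For (2) one counts the pairs `(w, τ)`.
-/

namespace Pool.Agent.Results.MP_03df5c_nt.EveryDepth

/-- the field of the real algebraic numbers -/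
noncomputable abbrev RealAlg : IntermediateField ℚ ℝ := algebraicClosure ℚ ℝ

/-- the multiple zeta value `ζ(k_1, …, k_D) = ∑_{n_1 > ⋯ > n_D ≥ 1} n_1 ^ (-k_1) ⋯ n_D ^ (-k_D)` -/
noncomputable def zeta {D : ℕ} (k : Fin D → ℕ) : ℝ :=
  ∑' n : {n : Fin D → ℕ // StrictAnti n ∧ ∀ i, 1 ≤ n i}, ∏ i, (((n.1 i : ℕ) : ℝ) ^ k i)⁻¹

/-- `2 τ` is added to the entries of `w` in the places `J`, and the entry `2 τ a` is inserted at the place `p` -/
def extend {c : ℕ} (w : Fin c → ℕ) (J : Finset (Fin c)) (a : ℕ) (p : Fin (c + 1)) (τ : ℕ) : Fin (c + 1) → ℕ :=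
  p.insertNth (2 * τ * a) (fun i => w i + if i ∈ J then 2 * τ else 0)

open Pool.Agent.H447R2.MZ Pool.Agent.H491

theorem zeta_eq {D : ℕ} (k : Fin D → ℕ) (hk : Adm (List.ofFn k)) : zeta k = Dep.zt k := (hasSum_val D k hk).tsum_eq

theorem adm_of {c : ℕ} (w : Fin c → ℕ) (h1 : ∀ i, 1 ≤ w i) (h2 : ∀ i : Fin c, (i : ℕ) = 0 → 2 ≤ w i) :
    Adm (List.ofFn w) := by
  refine ⟨fun b hb => ?_, fun b t e => ?_⟩
  · obtain ⟨i, rfl⟩ := (List.mem_ofFn' _ b).1 hb
    exact h1 i
  · rcases c with _ | c
    · simp at e
    · rw [List.ofFn_succ, List.cons.injEq] at e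
      rw [← e.1]
      exact h2 0 rfl

theorem adm_extend {c : ℕ} (w : Fin c → ℕ) (h1 : ∀ i, 1 ≤ w i) (h2 : ∀ i : Fin c, (i : ℕ) = 0 → 2 ≤ w i)
    (J : Finset (Fin c)) (a : ℕ) (p : Fin (c + 1)) (τ : ℕ) (ha : 1 ≤ a) (hτ : 1 ≤ τ) :
    Adm (List.ofFn (extend w J a p τ)) := by
  have hτa : 1 ≤ τ * a := Nat.mul_pos hτ ha
  apply adm_of
  · intro i
    unfold extend
    rcases Fin.eq_self_or_eq_succAbove p i with rfl | ⟨j, rfl⟩
    · rw [Fin.insertNth_apply_same, mul_assoc]
      omega
    · rw [Fin.insertNth_apply_succAbove]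
      have := h1 j
      omega
  · intro i hi
    unfold extend
    rcases Fin.eq_self_or_eq_succAbove p i with rfl | ⟨j, rfl⟩
    · rw [Fin.insertNth_apply_same, mul_assoc]
      omega
    · rw [Fin.insertNth_apply_succAbove]
      have hj : (j : ℕ) = 0 := by
        have h3 : (j : ℕ) ≤ (p.succAbove j : ℕ) := by
          unfold Fin.succAbove
          split_ifs <;> simp
        omega
      have := h2 j hj
      omega

theorem result (c q e : ℕ) (E : Submodule RealAlg ℝ) (hE : Module.rank RealAlg E ≤ e) :
    -- (1) all but few scales `τ` are good for the index `w`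
    (∀ w : Fin c → ℕ, (∀ i, 1 ≤ w i) → (∀ i : Fin c, (i : ℕ) = 0 → 2 ≤ w i) →
      {τ : ℕ | 1 ≤ τ ∧ ∀ (J : Finset (Fin c)) (a : ℕ) (p : Fin (c + 1)), 1 ≤ a → J.card + a ≤ c + 1 →
        zeta (extend w J a p τ) ∈ E}.encard ≤ ((c + 1) * (e + 1).choose 2 : ℕ)) ∧
    -- (2) the number of the indices of depth `c + 1` with exactly `q` odd entries
    (q ≤ c → ∀ M : ℕ, M ^ c * (M - (c + 1) * (e + 1).choose 2) ≤ (c + 1) ^ 2 * 2 ^ c *
      {k : Fin (c + 1) → ℕ | (∀ i, 2 ≤ k i) ∧ (Finset.univ.filter fun i => Odd (k i)).card = q ∧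
        ∑ i, k i ≤ 5 * (c + 1) * M ∧ zeta k ∉ E}.ncard) := by
  constructor
  · intro w h1 h2
    refine le_trans (Set.encard_le_encard ?_) (Dep.local_count w (adm_of w h1 h2) E e hE)
    rintro τ ⟨hτ, h3⟩
    refine ⟨hτ, fun J a p ha hJ => ?_⟩
    have h4 := h3 J a p ha hJ
    rwa [zeta_eq _ (adm_extend w h1 h2 J a p τ ha hτ)] at h4
  · intro hq M
    have h1 := Dep.count hq E hE M
    have h2 : {k : Fin (c + 1) → ℕ | (∀ i, 2 ≤ k i) ∧ (Finset.univ.filter fun i => Odd (k i)).card = q ∧
        ∑ i, k i ≤ 5 * (c + 1) * M ∧ zeta k ∉ E} = Dep.V c q (5 * (c + 1) * M) E := by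
      ext k
      simp only [Set.mem_ofPred_eq, Dep.V]
      refine and_congr_right fun h3 => ?_
      rw [zeta_eq k (Dep.adm_ofFn k h3)]
    rw [h2]
    exact h1

end Pool.Agent.Results.MP_03df5c_nt.EveryDepth
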